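import Pool.Agent.Helper98.Sim.Defs

/-! Module E1: geometry of kites. -/

open scoped Classical BigOperators
open Finset

namespace Pool.Agent.Helper74.Sim

open Pool.Agent.Helper98.Sim

noncomputable section

theorem nsq3 (x : Fin 3 → ℝ) : nsq x = x 0 ^ 2 + x 1 ^ 2 + x 2 ^ 2 := by
  simp only [nsq, dotProduct, Fin.sum_univ_three]; ring

theorem dot3 (x y : Fin 3 → ℝ) : x ⬝ᵥ y = x 0 * y 0 + x 1 * y 1 + x 2 * y 2 := by
  simp only [dotProduct, Fin.sum_univ_three]

theorem ext3 {x y : Fin 3 → ℝ} (h0 : x 0 = y 0) (h1 : x 1 = y 1) (h2 : x 2 = y 2) : x = y := by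
  funext i; fin_cases i
  · exact h0
  · exact h1
  · exact h2

/-- cross product -/
def cr (a b : Fin 3 → ℝ) : Fin 3 → ℝ :=
  ![a 1 * b 2 - a 2 * b 1, a 2 * b 0 - a 0 * b 2, a 0 * b 1 - a 1 * b 0]

theorem cr0 (a b : Fin 3 → ℝ) : cr a b 0 = a 1 * b 2 - a 2 * b 1 := rfl
theorem cr1 (a b : Fin 3 → ℝ) : cr a b 1 = a 2 * b 0 - a 0 * b 2 := rfl
theorem cr2 (a b : Fin 3 → ℝ) : cr a b 2 = a 0 * b 1 - a 1 * b 0 := rfl

theorem nsq_pos {x : Fin 3 → ℝ} (h : x ≠ 0) : 0 < nsq x := by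
  rw [nsq3]
  by_contra hc
  push Not at hc
  apply h
  have h0 : x 0 = 0 := by nlinarith [sq_nonneg (x 0), sq_nonneg (x 1), sq_nonneg (x 2)]
  have h1 : x 1 = 0 := by nlinarith [sq_nonneg (x 0), sq_nonneg (x 1), sq_nonneg (x 2)]
  have h2 : x 2 = 0 := by nlinarith [sq_nonneg (x 0), sq_nonneg (x 1), sq_nonneg (x 2)]
  exact ext3 h0 h1 h2

/-- a vector orthogonal to `a` and `b` is parallel to `a × b` -/
theorem perp_par {a b y : Fin 3 → ℝ} (hw : cr a b ≠ 0) (ha : a ⬝ᵥ y = 0) (hb : b ⬝ᵥ y = 0) :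
    y = ((cr a b ⬝ᵥ y) / nsq (cr a b)) • cr a b := by
  have hp := nsq_pos hw
  rw [dot3] at ha hb
  have e0 : y 0 * nsq (cr a b) = (cr a b ⬝ᵥ y) * cr a b 0 := by
    rw [nsq3, dot3, cr0, cr1, cr2]
    linear_combination -((a 2 * b 0 - a 0 * b 2) * b 2 - (a 0 * b 1 - a 1 * b 0) * b 1) * ha
      + ((a 2 * b 0 - a 0 * b 2) * a 2 - (a 0 * b 1 - a 1 * b 0) * a 1) * hb
  have e1 : y 1 * nsq (cr a b) = (cr a b ⬝ᵥ y) * cr a b 1 := by
    rw [nsq3, dot3, cr0, cr1, cr2]
    linear_combination -((a 0 * b 1 - a 1 * b 0) * b 0 - (a 1 * b 2 - a 2 * b 1) * b 2) * ha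
      + ((a 0 * b 1 - a 1 * b 0) * a 0 - (a 1 * b 2 - a 2 * b 1) * a 2) * hb
  have e2 : y 2 * nsq (cr a b) = (cr a b ⬝ᵥ y) * cr a b 2 := by
    rw [nsq3, dot3, cr0, cr1, cr2]
    linear_combination -((a 1 * b 2 - a 2 * b 1) * b 1 - (a 2 * b 0 - a 0 * b 2) * b 0) * ha
      + ((a 1 * b 2 - a 2 * b 1) * a 1 - (a 2 * b 0 - a 0 * b 2) * a 0) * hb
  apply ext3
  · rw [Pi.smul_apply, smul_eq_mul, div_mul_eq_mul_div, eq_div_iff hp.ne']; exact e0
  · rw [Pi.smul_apply, smul_eq_mul, div_mul_eq_mul_div, eq_div_iff hp.ne']; exact e1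
  · rw [Pi.smul_apply, smul_eq_mul, div_mul_eq_mul_div, eq_div_iff hp.ne']; exact e2

/-- parallel vectors -/
theorem par_of_cr {a b : Fin 3 → ℝ} (hb : b ≠ 0) (h : cr a b = 0) :
    a = ((a ⬝ᵥ b) / nsq b) • b := by
  have hp := nsq_pos hb
  have c0 : a 1 * b 2 - a 2 * b 1 = 0 := by rw [← cr0, h]; rfl
  have c1 : a 2 * b 0 - a 0 * b 2 = 0 := by rw [← cr1, h]; rfl
  have c2 : a 0 * b 1 - a 1 * b 0 = 0 := by rw [← cr2, h]; rfl
  have e0 : a 0 * nsq b = (a ⬝ᵥ b) * b 0 := by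
    rw [nsq3, dot3]; linear_combination b 1 * c2 - b 2 * c1
  have e1 : a 1 * nsq b = (a ⬝ᵥ b) * b 1 := by
    rw [nsq3, dot3]; linear_combination b 2 * c0 - b 0 * c2
  have e2 : a 2 * nsq b = (a ⬝ᵥ b) * b 2 := by
    rw [nsq3, dot3]; linear_combination b 0 * c1 - b 1 * c0
  apply ext3
  · rw [Pi.smul_apply, smul_eq_mul, div_mul_eq_mul_div, eq_div_iff hp.ne']; exact e0
  · rw [Pi.smul_apply, smul_eq_mul, div_mul_eq_mul_div, eq_div_iff hp.ne']; exact e1
  · rw [Pi.smul_apply, smul_eq_mul, div_mul_eq_mul_div, eq_div_iff hp.ne']; exact e2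

theorem coll_empty : Coll (∅ : Finset (Fin 3 → ℝ)) :=
  ⟨0, fun _ => 1, fun h => one_ne_zero (congrFun h 0), fun x hx => absurd hx (notMem_empty x)⟩

theorem coll_of_perp {B : Finset (Fin 3 → ℝ)} {a b x0 : Fin 3 → ℝ} (hw : cr a b ≠ 0)
    (h : ∀ x ∈ B, a ⬝ᵥ (x - x0) = 0 ∧ b ⬝ᵥ (x - x0) = 0) : Coll B := by
  refine ⟨x0, cr a b, hw, fun x hx => ?_⟩
  have := perp_par hw (h x hx).1 (h x hx).2
  exact ⟨_, by rw [← this]; abel⟩

/-- the bisector plane -/
theorem bis_iff (r s x : Fin 3 → ℝ) :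
    Bis r s x ↔ 2 * ((s - r) ⬝ᵥ (x - r)) = nsq (s - r) := by
  unfold Bis
  rw [nsq3, nsq3, nsq3, dot3]
  simp only [Pi.sub_apply]
  constructor <;> intro h <;> nlinarith [h]

theorem bis_perp {r s x y : Fin 3 → ℝ} (hx : Bis r s x) (hy : Bis r s y) :
    (s - r) ⬝ᵥ (x - y) = 0 := by
  rw [bis_iff, dot3] at hx hy
  rw [dot3]
  simp only [Pi.sub_apply] at *
  linarith

theorem good_pos {L M : ℝ} (h : Good L M) : 0 < L := by
  unfold Good at h
  nlinarith [sq_nonneg (1 + L - M)]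

/-- the intersection of a line and a sphere has at most two points; here in the form needed:
`x ⟂ b`, `⟨a, x⟩ = c`, `|x|² = ρ` -/
theorem two_points {a b x y : Fin 3 → ℝ} (hw : cr a b ≠ 0)
    (ha : a ⬝ᵥ x = a ⬝ᵥ y) (hb : b ⬝ᵥ x = b ⬝ᵥ y) (hn : nsq x = nsq y) :
    x = y ∨ x = y + (-2 * (cr a b ⬝ᵥ y) / nsq (cr a b)) • cr a b := by
  have hp := nsq_pos hw
  have h1 : a ⬝ᵥ (x - y) = 0 := by rw [dotProduct_sub, ha, sub_self]
  have h2 : b ⬝ᵥ (x - y) = 0 := by rw [dotProduct_sub, hb, sub_self]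
  have h3 := perp_par hw h1 h2
  set w := cr a b with hwdef
  set l := (w ⬝ᵥ (x - y)) / nsq w with hl
  have hx : x = y + l • w := by rw [← h3]; abel
  have h4 : l * (2 * (w ⬝ᵥ y) + l * nsq w) = 0 := by
    have h5 : nsq (y + l • w) = nsq y + l * (2 * (w ⬝ᵥ y) + l * nsq w) := by
      rw [nsq3, nsq3, nsq3, dot3]
      simp only [Pi.add_apply, Pi.smul_apply, smul_eq_mul]
      ring
    rw [hx, h5] at hn
    linarith
  rcases mul_eq_zero.1 h4 with h | h
  · left; rw [hx, h, zero_smul, add_zero]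
  · right
    have h6 : l = -2 * (w ⬝ᵥ y) / nsq w := by
      rw [eq_div_iff hp.ne']; linarith
    rw [hx, ← h6]

theorem kite1 {L M : ℝ} {p q r s : Fin 3 → ℝ} (h1 : Tri L M p q r) (h2 : Tri L M p q s) :
    Bis r s p ∧ Bis r s q := by
  obtain ⟨-, a1, a2⟩ := h1
  obtain ⟨-, b1, b2⟩ := h2
  have e : ∀ x y : Fin 3 → ℝ, nsq (x - y) = nsq (y - x) := by
    intro x y
    rw [nsq3, nsq3]; simp only [Pi.sub_apply]; ring
  constructor
  · unfold Bis; rw [e p r, e p s, a1, b1]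
  · unfold Bis; rw [e q r, e q s, a2, b2]

theorem kite2 {L M : ℝ} (hg : Good L M) (P : Finset (Fin 3 → ℝ)) {r s : Fin 3 → ℝ} (hrs : r ≠ s) :
    ((bisSet P r s).offDiag.filter (fun z => Tri L M z.1 z.2 r)).card ≤
      3 * (bisSet P r s).card := by
  set B := bisSet P r s with hB
  have hL := good_pos hg
  set m : Fin 3 → ℝ := (1 / 2 : ℝ) • (r + s) with hm
  have hsub : B.offDiag.filter (fun z => Tri L M z.1 z.2 r) ⊆
      B.biUnion fun p => (B.filter fun q => p ≠ q ∧ Tri L M p q r).image fun q => (p, q) := by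
    rintro ⟨p, q⟩ hz
    rw [mem_filter, mem_offDiag] at hz
    rw [mem_biUnion]
    refine ⟨p, hz.1.1, ?_⟩
    rw [mem_image]
    exact ⟨q, mem_filter.2 ⟨hz.1.2.1, hz.1.2.2, hz.2⟩, rfl⟩
  have hfib : ∀ p ∈ B, p ≠ m → (B.filter fun q => p ≠ q ∧ Tri L M p q r).card ≤ 2 := by
    intro p hp hpm
    rcases (B.filter fun q => p ≠ q ∧ Tri L M p q r).eq_empty_or_nonempty with h | ⟨q0, hq0⟩
    · rw [h]; simp
    rw [mem_filter] at hq0
    have hpB : Bis r s p := (mem_filter.1 hp).2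
    have hw : cr (r - p) (s - r) ≠ 0 := by
      intro h
      have hsr : s - r ≠ 0 := sub_ne_zero.2 hrs.symm
      have h1 := par_of_cr hsr h
      rw [bis_iff] at hpB
      have hp0 := nsq_pos hsr
      have h2 : (r - p) ⬝ᵥ (s - r) = - ((s - r) ⬝ᵥ (p - r)) := by
        rw [dot3, dot3]; simp only [Pi.sub_apply]; ring
      have h3 : ((r - p) ⬝ᵥ (s - r)) / nsq (s - r) = -(1 / 2) := by
        rw [h2, div_eq_iff hp0.ne']; linarith
      rw [h3] at h1
      apply hpm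
      rw [hm]
      have e : ∀ i, p i = (1 / 2 : ℝ) * (r i + s i) := by
        intro i
        have := congrFun h1 i
        simp only [Pi.sub_apply, Pi.smul_apply, smul_eq_mul] at this
        linarith
      funext i
      rw [e i]; rfl
    have key : ∀ q ∈ B.filter (fun q => p ≠ q ∧ Tri L M p q r),
        q - p = q0 - p ∨ q - p = (q0 - p) +
          (-2 * (cr (r - p) (s - r) ⬝ᵥ (q0 - p)) / nsq (cr (r - p) (s - r))) •
            cr (r - p) (s - r) := by
      intro q hq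
      rw [mem_filter] at hq
      obtain ⟨-, a1, a2⟩ := hq.2.2
      obtain ⟨-, b1, b2⟩ := hq0.2.2
      have e1 : nsq (q - p) = nsq (q0 - p) := by
        have : L * nsq (q - p) = L * nsq (q0 - p) := by rw [← a1, ← b1]
        exact mul_left_cancel₀ hL.ne' this
      apply two_points hw _ _ e1
      · rw [e1, ← b2] at a2
        rw [nsq3, nsq3] at a2 e1
        rw [dot3, dot3]
        simp only [Pi.sub_apply] at *
        nlinarith [a2, e1]
      · have f1 := bis_perp (mem_filter.1 hq.1).2 hpB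
        have f2 := bis_perp (mem_filter.1 hq0.1).2 hpB
        rw [f1, f2]
    have hsub2 : B.filter (fun q => p ≠ q ∧ Tri L M p q r) ⊆
        {q0, q0 + (-2 * (cr (r - p) (s - r) ⬝ᵥ (q0 - p)) / nsq (cr (r - p) (s - r))) •
            cr (r - p) (s - r)} := by
      intro q hq
      rw [mem_insert, mem_singleton]
      rcases key q hq with h | h
      · left
        exact sub_left_injective h
      · right
        have : q = (q - p) + p := by abel
        rw [this, h]; abel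
    exact (card_le_card hsub2).trans card_le_two
  have hfib' : ∀ p ∈ B, (B.filter fun q => p ≠ q ∧ Tri L M p q r).card ≤
      2 + if p = m then B.card else 0 := by
    intro p hp
    by_cases h : p = m
    · rw [if_pos h]
      exact (card_filter_le _ _).trans (by omega)
    · rw [if_neg h]; exact hfib p hp h
  calc _ ≤ _ := card_le_card hsub
    _ ≤ ∑ p ∈ B, ((B.filter fun q => p ≠ q ∧ Tri L M p q r).image fun q => (p, q)).card :=
        card_biUnion_le
    _ ≤ ∑ p ∈ B, (2 + if p = m then B.card else 0) :=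
        sum_le_sum fun p hp => card_image_le.trans (hfib' p hp)
    _ = 2 * B.card + if m ∈ B then B.card else 0 := by
        rw [sum_add_distrib, sum_const, sum_ite_eq' , smul_eq_mul, mul_comm]
    _ ≤ 3 * B.card := by split_ifs <;> omega

theorem kite3 {L M : ℝ} (hg : Good L M) (A : Finset (Fin 3 → ℝ)) (r : Fin 3 → ℝ) (hA : Coll A) :
    (A.offDiag.filter (fun z => Tri L M z.1 z.2 r)).card ≤ 2 := by
  obtain ⟨a, v, hv, hon⟩ := hA
  have hV := nsq_pos hv
  rcases (A.offDiag.filter (fun z => Tri L M z.1 z.2 r)).eq_empty_or_nonempty with h | ⟨z0, hz0⟩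
  · rw [h]; simp
  set g : ℝ := ((r - a) ⬝ᵥ v) / nsq v with hgdef
  set κ : ℝ := (1 + L - M) / 2 with hκ
  have hgV : g * nsq v = (r - a) ⬝ᵥ v := by rw [hgdef, div_mul_cancel₀ _ hV.ne']
  -- coordinates
  have key : ∀ z ∈ A.offDiag.filter (fun z => Tri L M z.1 z.2 r), ∃ u : ℝ,
      z = (a + (g - κ * u) • v, a + (g - κ * u + u) • v) ∧
      (L - κ ^ 2) * u ^ 2 * nsq v = nsq (r - a) - g ^ 2 * nsq v := by
    rintro ⟨p, q⟩ hz
    rw [mem_filter, mem_offDiag] at hz
    obtain ⟨⟨hp, hq, hpq⟩, -, h1, h2⟩ := hz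
    obtain ⟨s, hs⟩ := hon p hp
    obtain ⟨t, ht⟩ := hon q hq
    simp only at hs ht h1 h2 hpq
    have hst : t - s ≠ 0 := by
      intro h
      apply hpq
      rw [hs, ht, sub_eq_zero.1 h]
    have e1 : nsq (r - p) = nsq (r - a) - 2 * s * (g * nsq v) + s ^ 2 * nsq v := by
      rw [hgV, hs, nsq3, nsq3, nsq3, dot3]
      simp only [Pi.sub_apply, Pi.add_apply, Pi.smul_apply, smul_eq_mul]
      ring
    have e2 : nsq (r - q) = nsq (r - a) - 2 * t * (g * nsq v) + t ^ 2 * nsq v := by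
      rw [hgV, ht, nsq3, nsq3, nsq3, dot3]
      simp only [Pi.sub_apply, Pi.add_apply, Pi.smul_apply, smul_eq_mul]
      ring
    have e3 : nsq (q - p) = (t - s) ^ 2 * nsq v := by
      rw [hs, ht, nsq3, nsq3]
      simp only [Pi.sub_apply, Pi.add_apply, Pi.smul_apply, smul_eq_mul]
      ring
    rw [e1, e3] at h1
    rw [e2, e3] at h2
    have h3 : (t - s) * nsq v * (2 * g - (t + s) - (L - M) * (t - s)) = 0 := by
      linear_combination h1 - h2
    have h4 : 2 * g - (t + s) - (L - M) * (t - s) = 0 := by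
      rcases mul_eq_zero.1 h3 with h | h
      · rcases mul_eq_zero.1 h with h | h
        · exact absurd h hst
        · exact absurd h hV.ne'
      · exact h
    have h5 : s = g - κ * (t - s) := by rw [hκ]; linarith
    refine ⟨t - s, ?_, ?_⟩
    · rw [← h5, show s + (t - s) = t by ring, ← hs, ← ht]
    · have h6 : nsq (r - a) - g ^ 2 * nsq v + (g - s) ^ 2 * nsq v = L * ((t - s) ^ 2 * nsq v) := by
        linear_combination h1
      have h7 : g - s = κ * (t - s) := by linarith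
      rw [h7] at h6
      linear_combination -h6
  have hLκ : 0 < L - κ ^ 2 := by
    unfold Good at hg
    rw [hκ]; nlinarith
  obtain ⟨u0, hu0, hn0⟩ := key z0 hz0
  have hsub : A.offDiag.filter (fun z => Tri L M z.1 z.2 r) ⊆
      {z0, (a + (g - κ * (-u0)) • v, a + (g - κ * (-u0) + (-u0)) • v)} := by
    intro z hz
    obtain ⟨u, hu, hn⟩ := key z hz
    have h1 : u ^ 2 = u0 ^ 2 := by
      have h2 : ((L - κ ^ 2) * nsq v) * u ^ 2 = ((L - κ ^ 2) * nsq v) * u0 ^ 2 := by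
        linear_combination hn - hn0
      exact mul_left_cancel₀ (mul_pos hLκ hV).ne' h2
    rw [mem_insert, mem_singleton]
    rcases sq_eq_sq_iff_eq_or_eq_neg.1 h1 with h | h
    · left; rw [hu, hu0, h]
    · right; rw [hu, h]
  exact (card_le_card hsub).trans card_le_two

theorem mem_planes {P B : Finset (Fin 3 → ℝ)} (h : B ∈ Planes P) : ¬ Coll B := by
  unfold Planes at h
  exact (mem_filter.1 h).2.1

theorem nonempty_of_not_coll {B : Finset (Fin 3 → ℝ)} (h : ¬ Coll B) : ∃ x, x ∈ B := by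
  by_contra hc
  push Not at hc
  apply h
  rw [eq_empty_of_forall_notMem hc]
  exact coll_empty

theorem kite4 (P : Finset (Fin 3 → ℝ)) (r s s' : Fin 3 → ℝ) (hrs : r ≠ s) (hrs' : r ≠ s')
    (hB : bisSet P r s ∈ Planes P) (he : bisSet P r s = bisSet P r s') : s = s' := by
  have hnc := mem_planes hB
  obtain ⟨x0, hx0⟩ := nonempty_of_not_coll hnc
  have b0 : Bis r s x0 := (mem_filter.1 hx0).2
  have b0' : Bis r s' x0 := by
    rw [he] at hx0; exact (mem_filter.1 hx0).2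
  have hw : cr (s' - r) (s - r) = 0 := by
    by_contra hw
    apply hnc
    apply coll_of_perp (x0 := x0) hw
    intro x hx
    have b1 : Bis r s x := (mem_filter.1 hx).2
    have b1' : Bis r s' x := by
      rw [he] at hx; exact (mem_filter.1 hx).2
    exact ⟨bis_perp b1' b0', bis_perp b1 b0⟩
  have hsr : s - r ≠ 0 := sub_ne_zero.2 hrs.symm
  have hsr' : s' - r ≠ 0 := sub_ne_zero.2 hrs'.symm
  have h1 := par_of_cr hsr hw
  set θ := ((s' - r) ⬝ᵥ (s - r)) / nsq (s - r) with hθ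
  have hθ0 : θ ≠ 0 := by
    intro h
    rw [h, zero_smul] at h1
    exact hsr' h1
  rw [bis_iff] at b0 b0'
  rw [h1] at b0'
  have e1 : (θ • (s - r)) ⬝ᵥ (x0 - r) = θ * ((s - r) ⬝ᵥ (x0 - r)) := by
    rw [smul_dotProduct, smul_eq_mul]
  have e2 : nsq (θ • (s - r)) = θ ^ 2 * nsq (s - r) := by
    rw [nsq3, nsq3]; simp only [Pi.smul_apply, smul_eq_mul]; ring
  rw [e1, e2] at b0'
  have hp := nsq_pos hsr
  have h2 : θ = 1 := by
    have h3 : θ * nsq (s - r) * (1 - θ) = 0 := by linear_combination b0' - θ * b0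
    rcases mul_eq_zero.1 h3 with h | h
    · rcases mul_eq_zero.1 h with h | h
      · exact absurd h hθ0
      · exact absurd h hp.ne'
    · linarith
  rw [h2, one_smul] at h1
  exact (sub_left_injective h1).symm

theorem kite5 (P : Finset (Fin 3 → ℝ)) (r s w : Fin 3 → ℝ) (δ : ℝ) (hrs : r ≠ s)
    (hB : bisSet P r s ∈ Planes P) (hw : w ≠ 0)
    (he : bisSet P r s = P.filter (fun x => w ⬝ᵥ x = δ)) : w ⬝ᵥ r ≠ δ := by
  intro hr
  have hnc := mem_planes hB
  obtain ⟨x0, hx0⟩ := nonempty_of_not_coll hnc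
  have b0 : Bis r s x0 := (mem_filter.1 hx0).2
  have b0' : w ⬝ᵥ x0 = δ := by
    rw [he] at hx0; exact (mem_filter.1 hx0).2
  have hc : cr (s - r) w = 0 := by
    by_contra hc
    apply hnc
    apply coll_of_perp (x0 := x0) hc
    intro x hx
    have b1 : Bis r s x := (mem_filter.1 hx).2
    have b1' : w ⬝ᵥ x = δ := by
      rw [he] at hx; exact (mem_filter.1 hx).2
    exact ⟨bis_perp b1 b0, by rw [dotProduct_sub, b1', b0', sub_self]⟩
  have h1 := par_of_cr hw hc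
  have hsr : s - r ≠ 0 := sub_ne_zero.2 hrs.symm
  have hp := nsq_pos hsr
  rw [bis_iff] at b0
  have h2 : (s - r) ⬝ᵥ (x0 - r) = 0 := by
    rw [h1, smul_dotProduct, dotProduct_sub, b0', hr, sub_self, smul_zero]
  rw [h2] at b0
  linarith

theorem kite6 (P : Finset (Fin 3 → ℝ)) (r s : Fin 3 → ℝ) (hrs : r ≠ s)
    (hB : bisSet P r s ∉ Planes P) : Coll (bisSet P r s) := by
  by_contra hc
  apply hB
  unfold Planes
  rw [mem_filter, mem_powerset]
  refine ⟨filter_subset _ _, hc, s - r, (s - r) ⬝ᵥ r + nsq (s - r) / 2, sub_ne_zero.2 hrs.symm, ?_⟩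
  unfold bisSet
  apply filter_congr
  intro x _
  rw [bis_iff, dotProduct_sub]
  constructor <;> intro h <;> linarith

theorem kite7 (γ : ℝ) (P B : Finset (Fin 3 → ℝ)) : Coll (domLine γ P B) := by
  unfold domLine
  split_ifs with h
  · have h1 := (Classical.choose_spec h).1
    unfold Lines at h1
    obtain ⟨-, -, a, v, hv, hA⟩ := mem_filter.1 h1
    refine ⟨a, v, hv, fun x hx => ?_⟩
    have hx' := (Finset.ext_iff.1 hA x).1 hx
    exact (mem_filter.1 hx').2
  · exact coll_empty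

theorem st_E1 : Kite_stmt := fun _ _ hg =>
  ⟨fun _ _ _ _ h1 h2 => kite1 h1 h2, fun P _ _ h => kite2 hg P h,
    fun A r hA => kite3 hg A r hA, kite4, kite5, kite6, kite7⟩

end

end Pool.Agent.Helper74.Sim
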